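import Mathlib
import Pool.Agent.X126.BP.B

/-! # MP_7b40b5_an: the reciprocal polynomial need not divide the characteristic polynomial of the
balanced pair substitution of `σ` and its reversal

The definitions are in `Pool.Agent.X126.BP` (letters are the elements of `Fin k`, words are lists):

* `app σ U = σ(U)`, `rev σ` is the reversal, `inc σ` the incidence matrix (over `ℚ`);
* `IsPisotPoly p`: `p` has a real root `l > 1` and all other complex roots have modulus `< 1`;
* `FixedPt σ u`: the infinite word `u` is fixed by `σ` (`σ` of every prefix is a prefix);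
* `Bal`, `MinBal`: balanced and minimal balanced pairs; `Splits X Y L`: the list `L` is the splitting
  of the pair `(X, Y)` into minimal balanced pairs;
* `IsP0 u v P`: `P` is the pair of the balanced prefixes of least length `n ≥ 1` of `u` and `v`;
* `Reach σ P0 P`: the algorithm started at `P0` reaches `P`;
* `mat B S`: the incidence matrix of the substitution `P ↦ S P` on the alphabet `B`.

The counterexample is `a ↦ ab`, `b ↦ cab`, `c ↦ a` with the fixed point `u = abcab…` of `σ` and the
fixed point `v = bacba…` of the reversal. Here `p(x) = x³ - 2x² - 1`, the minimal balanced pairs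
reached are `(ab, ba)`, `(c, c)`, `(a, a)`, and the characteristic polynomial of `Σ` is `p`. -/

set_option autoImplicit false

open Polynomial Pool.Agent.X126.BP

namespace Pool.Agent.Results.MP_7b40b5_an.ReciprocalNotDividing

/-- The assertion of Q1 for substitutions on `k` letters which differ from their reversals. (The
hypotheses `σ i ≠ []` and `∃ i, rev σ i ≠ σ i` are not in Q1; they make the assertion weaker.) -/
def Assertion (k : ℕ) : Prop :=
  ∀ (σ : Fin k → List (Fin k)) (u v : ℕ → Fin k) (P0 : List (Fin k) × List (Fin k))
    (B : Finset (List (Fin k) × List (Fin k)))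
    (S : List (Fin k) × List (Fin k) → List (List (Fin k) × List (Fin k))),
    (∀ i, σ i ≠ []) → (∃ i, rev σ i ≠ σ i) →
    |(inc σ).det| = 1 → Irreducible (inc σ).charpoly → IsPisotPoly (inc σ).charpoly →
    FixedPt σ u → FixedPt (rev σ) v → IsP0 u v P0 →
    (∀ P, P ∈ B ↔ Reach σ P0 P) →
    (∀ P ∈ B, Splits (app σ P.1) (app (rev σ) P.2) (S P)) →
    (inc σ).charpoly ≠ (inc σ).charpoly.reverse →
    (inc σ).charpoly ∣ (mat B S).charpoly ∧ (inc σ).charpoly.reverse ∣ (mat B S).charpoly

/-- **Main result.** The assertion of Q1 is false, already for three letters. (The second part says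
that the splitting of a pair is unique, so that `mat B S` is determined by the algorithm.) -/
theorem result : ¬ Assertion 3 ∧
    ∀ (k : ℕ) (X Y : List (Fin k)) (L L' : List (List (Fin k) × List (Fin k))),
      Splits X Y L → Splits X Y L' → L = L' := by
  refine ⟨fun h => ?_, fun k X Y L L' h h' => split_unique h h'⟩
  have h1 := h sg (fix sg 0) (fix (rev sg) 1) P1 B S sg_ne ⟨0, by decide⟩ det_inc
    (by rw [charpoly_inc]; exact irr_p) (by rw [charpoly_inc]; exact pisot_p) fix_u fix_v isP0
    mem_B splits_S (by rw [charpoly_inc]; exact p_ne_rev)
  rw [charpoly_inc, charpoly_mat] at h1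
  exact not_dvd h1.2

end Pool.Agent.Results.MP_7b40b5_an.ReciprocalNotDividing
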